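import Pool.Agent.Y99.AB.Pw

/-!
# If the category of Chow motives over a finite field is abelian, then Chow groups are bounded by
# the order of the poles of zeta functions

`𝒱` is a class of smooth proper schemes of pure dimension over the field `k` (not necessarily
connected), closed under products and containing `Spec k`, for instance all smooth projective ones;
`C` is a theory with the formal properties of the Chow groups with rational coefficients, and
`Motive C` the category of motives. In the intended use `k` is a finite field with `q` elements,
`Φ` the Frobenius endomorphisms (which multiply the classes of codimension `i` by `q ^ i`) and `R`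
is `ℓ`-adic cohomology; the two facts needed on it, the Lefschetz trace formula and the part
`Riemann` of the Riemann hypothesis (`q ^ i` is an eigenvalue of the Frobenius endomorphism only on
`H^(2i)`), are theorems of Grothendieck and Deligne. `mult R Φ X i` is the multiplicity of `q ^ i`
as an eigenvalue of the Frobenius endomorphism on the cohomology, that is, on `H^(2i)(X)`; this is
the order of the pole of the zeta function of `X` at `s = i`.

Theorem. (1) If the morphism `1 ⟶ h(X)(i)` given by one nonzero class `x ∈ C^i(X)` has a cokernel,
then `q ^ i` is an eigenvalue of the Frobenius endomorphism on the cohomology of `X`.

(2) Suppose that the category of motives is abelian. Then all groups `C^i(X)` have finite rank, and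
`rank C^(d - i)(X) + rank (numerically trivial classes in C^i(X)) ≤ mult X i`, `d = dim X`.

(3) Suppose that the category of motives is abelian. Then each numerically trivial correspondence
in `C^d(X × X)` is nilpotent; in particular, there are no numerically trivial idempotents `≠ 0`.

So the abelianness of the category of Chow motives over a finite field implies the finiteness of
the ranks of all Chow groups, with the bounds predicted by the conjectures of Tate and Beilinson;
and whenever the order of the pole of the zeta function of `X` at `i` is the rank of the group of
cycles of codimension `d - i` modulo numerical equivalence (the strong Tate conjecture), it implies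
that rational and numerical equivalence agree for the cycles of codimension `i` and `d - i` on `X`.

Idea of the proof. If the nonzero morphism `τ : M ⟶ 1` has a kernel `S`, then
`tr(φ | S) = tr(φ | M) - 1` for the endomorphisms `φ` of `M` with `τ φ = τ`: this is additivity of
the trace, which we prove in a category which need not be abelian by lifting the morphism
`m ↦ τ(m) φ - m ⊗ τ` from `M` to `M^* ⊗ M` to `M^* ⊗ S`. Take for `φ` the powers of the Frobenius
endomorphism, which is central in the category of motives: the super-multiplicity of the
eigenvalue one on `S` is one less than on `M`. By the Riemann hypothesis this eigenvalue occurs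
only in even degree, hence these numbers are dimensions and not negative. Kernels and cokernels are
taken until there are no nonzero morphisms to the unit and, on numerically trivial classes, from
the unit. For (3), the motive `(X, e) ⊗ h(X)^*`, `e` a numerically trivial idempotent, has the
traces zero, so that it has no nonzero morphism from the unit.
-/

set_option autoImplicit false

open CategoryTheory CategoryTheory.Limits AlgebraicGeometry

universe u v w

namespace Pool.Agent.Results.MP_6c4da4_ag.FrobeniusBound

open Pool.Agent.Y108.Mo SmClass.Obj Pool.Agent.Y99.AB

/-- The abelianness of the category of motives over a finite field bounds the ranks of the groups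
of cycles by the multiplicities of the Frobenius eigenvalues, and numerically trivial
correspondences are nilpotent. -/
theorem result {k : Type u} [Field k] {𝒱 : SmClass k} (C : CycleTheory.{u, v} 𝒱)
    [IsCycleTheory C] {K : Type w} [Field K] [CharZero K] (R : Realization C K)
    (hR : IsRealization R) {q : ℕ} (hq : 2 ≤ q) (Φ : Frob C q) (hRH : Riemann R Φ) :
    (∀ (X : 𝒱.Obj) (i : ℤ) (x : C.gr X i), x ≠ 0 → HasCokernel (ofClass C x) →
      1 ≤ mult R Φ X i) ∧
    (IsAbelianCat (Motive C) → RankBound R Φ ∧ NumNilpotent C) :=
  have hq0 : q ≠ 0 := by omega
  ⟨fun X i x hx h => mult_pos hR hRH hq0 X i x hx h, fun hab =>
    ⟨fun X i => ⟨finite_gr hR hRH hq0 hab X i, bound hR hRH hq0 hab X i⟩,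
      fun X _ hf => nilpotent hR hRH hq0 hab X hf⟩⟩

end Pool.Agent.Results.MP_6c4da4_ag.FrobeniusBound
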