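import Pool.Agent.Y108.Mo.Ker

/-!
# Which cycle classes give morphisms of motives that have a kernel

`𝒱` is a class of smooth proper schemes of pure dimension over the field `k` (not necessarily
connected), closed under products and containing `Spec k`, for instance all smooth projective
ones; `C` is a theory with the formal properties of the Chow groups with rational coefficients (or
of cycles modulo another adequate relation). `Motive C` is the category of motives: triples
`(X, m, p)`, with `Hom((X, m), (Y, n)) = C^(dim X + n - m)(X × Y)`.

Theorem. Let `x ∈ C^i(X)` be not zero. The morphism `1 ⟶ h(X)(i)` given by `x` has a kernel if and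
only if the external products `x × y` with all non zero classes `y` on all members of the class
are not zero.

Idea of the proof. Let `(Z, m, p)` be a kernel, with the morphism to `1` given by `I ∈ C(Z)`. By
uniqueness `x × p = 0`, hence `p`, as a class on `T = Z × Z`, factors through the kernel:
`p(a, b) = ∫ h(a, b; c) I(c)`. By uniqueness again `I(e) h(a, b; c) = p(a, b) p(e, c)`, and the
contraction `c = a` gives `p(e, b) = I(e) r(b)`. So the kernel is a direct summand of `1`, and it
is zero as `x` is not zero.
-/

set_option autoImplicit false

open CategoryTheory CategoryTheory.Limits AlgebraicGeometry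

universe u v

namespace Pool.Agent.Results.MP_6c4da4_ag.KernelCriterion

open Pool.Agent.Y108.Mo

/-- The morphism `1 ⟶ h(X)(i)` given by a non zero cycle class `x` has a kernel in the category of
motives if and only if no external product `x × y`, `y ≠ 0`, vanishes. -/
theorem result {k : Type u} [Field k] {𝒱 : SmClass k} (C : CycleTheory.{u, v} 𝒱)
    [IsCycleTheory C] {X : 𝒱.Obj} {i : ℤ} (x : C.gr X i) (hx : (x : C.A X) ≠ 0) :
    HasKernel (ofClass C x) ↔
      ∀ (Y : 𝒱.Obj) (j : ℤ) (y : C.A Y), y ∈ C.gr Y j → y ≠ 0 → C.ext (x : C.A X) y ≠ 0 :=
  hasKernel_iff C x hx

end Pool.Agent.Results.MP_6c4da4_ag.KernelCriterion
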