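import Pool.Agent.Y133.Chow.Semi2

/-!
# MP_6c4da4_ag: semisimple rings of correspondences and the growth of the Chow groups of powers

Let `X` be a smooth projective variety over a field `k`, for example a finite field. Let `b(n)` be
the dimension of the Chow ring of `X^n` with rational coefficients (possibly infinite) and `a(n)` the
dimension of its quotient modulo numerical equivalence. Then `b(n) / a(n)` converges to some
`N ∈ {1, 2, 3, …, ∞}`, and:

* `N = 1` if and only if for all `n` every element `f` of the ring of correspondences
  `CH(X^n × X^n)` has a quasi-inverse `g`, that is `f ∘ g ∘ f = f` (then these rings are semisimple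
  and the category of the motives generated by `X` is abelian and semisimple);
* if external products of nonzero elements of Chow groups are never zero (which holds if the category
  of Chow motives over `k` is abelian, see `KernelCriterion`), then `N = 1` or `N = ∞`;
* if `N` is finite then all numerically trivial elements of `CH(X^n × X^n)` are nilpotent.
-/

open CategoryTheory AlgebraicGeometry Filter Topology

universe u v w

namespace Pool.Agent.Results.MP_6c4da4_ag.SemisimpleIndex

open Pool.Agent.H914 Pool.Agent.H914.VarClass Pool.Agent.H914.VarClass.Obj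
  Pool.Agent.H914.WeilCohomology Pool.Agent.W492.BB Pool.Agent.TH133 Pool.Agent.Y133.Chow
  Pool.Agent.Y129

variable {k : Type u} [Field k] {𝒱 : VarClass k} {ops : CycleOps 𝒱}

theorem result {W : WeilCohomology.{u, v} ops} {C : TheoryData.{u, w, 0} 𝒱 ℚ} [IsChowProj C]
    (c : ClassMap W C) (X : 𝒱.Obj) [Nontrivial (W.H X)] :
    ∃ N : ℕ∞, 1 ≤ N ∧
      RatioTendsTo (fun n => chowDim C (pw X n)) (fun n => numDim c (pw X n)) N ∧
      (N = 1 ↔ ∀ n, QuasiInverses C (pw X n)) ∧
      (ExtNonzero C → N = 1 ∨ N = ⊤) ∧
      (N ≠ ⊤ → ∀ n, NilpotentOn c (pw X n)) :=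
  semi_index c X

end Pool.Agent.Results.MP_6c4da4_ag.SemisimpleIndex
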